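import Pool.Agent.helper68.SG.All

/-!
# MP_2b8aea_gt, Q1: full answer (positive)

Singularity of the hitting measures of finitely supported random walks on closed surface groups,
with a bound of the dimension that is uniform over Teichmueller space.
-/

set_option autoImplicit false

open MeasureTheory Set Metric
open scoped ENNReal

namespace Pool.Agent.Results.MP_2b8aea_gt.SingularityConjecture

open Pool.Agent.SG

/-- For every closed oriented surface (genus `g ≥ 2`) and every admissible probability measure `μ`
of finite support on its fundamental group there is `δ < 1` such that for every discrete faithful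
representation `ρ` in the group of orientation preserving isometries of the hyperbolic plane every
`μ`-stationary probability measure `ν` on the boundary circle (the hitting measure) has dimension
at most `δ`. -/
theorem result (g : ℕ) (hg : 2 ≤ g) (μ : PMF (SurfaceGroup g)) (hμ : FinAdmissible μ) :
    ∃ δ : ℝ≥0∞, δ < 1 ∧ ∀ ρ : SurfaceGroup g →* IsomD, DiscreteFaithful ρ →
      ∀ ν : Measure CDisc, IsStationary μ ρ ν → measureDim ν ≤ δ :=
  Pool.Agent.SG.All.aQ1 g hg μ hμ

end Pool.Agent.Results.MP_2b8aea_gt.SingularityConjecture
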